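import Pool.Agent.helper68.GHR.All

namespace Pool.Agent.Results.MP_c367c1_co.AlmostAllRegular

open SimpleGraph Pool.Agent.helper88.GH

/-- The `2m`-regular graphs on `n` labelled vertices which are not decomposed by every tree with
`m` edges and diameter at most `D` are at most a fraction `(8mD)^(4D+3) / n` of all of them, and
the same holds for the bipartite `m`-regular graphs with two labelled parts of size `n`. For
`D = m` these are all trees with `m` edges (last part). So for every fixed `m` almost all
`2m`-regular graphs and almost all bipartite `m`-regular graphs are decomposed by all trees with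
`m` edges. -/
theorem result :
    (∀ m D n : ℕ, 1 ≤ m → 1 ≤ D → 1 ≤ n →
      n * Set.ncard {G : SimpleGraph (Fin n) | (∀ v, (G.neighborSet v).ncard = 2 * m) ∧
          ∃ T : SimpleGraph (Fin (m + 1)), T.IsTree ∧ T.ediam ≤ D ∧ ¬ Decomposes T G} ≤
        (8 * m * D) ^ (4 * D + 3) *
          Set.ncard {G : SimpleGraph (Fin n) | ∀ v, (G.neighborSet v).ncard = 2 * m} ∧
      n * Set.ncard {G : SimpleGraph (Fin n ⊕ Fin n) |
          G ≤ completeBipartiteGraph (Fin n) (Fin n) ∧ (∀ v, (G.neighborSet v).ncard = m) ∧
          ∃ T : SimpleGraph (Fin (m + 1)), T.IsTree ∧ T.ediam ≤ D ∧ ¬ Decomposes T G} ≤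
        (8 * m * D) ^ (4 * D + 3) *
          Set.ncard {G : SimpleGraph (Fin n ⊕ Fin n) |
            G ≤ completeBipartiteGraph (Fin n) (Fin n) ∧ ∀ v, (G.neighborSet v).ncard = m}) ∧
    ∀ (m : ℕ) (T : SimpleGraph (Fin (m + 1))), T.IsTree → T.ediam ≤ m :=
  Pool.Agent.GHR.all_Asm.2

end Pool.Agent.Results.MP_c367c1_co.AlmostAllRegular
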