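import Pool.Agent.helper68.GHR.All

namespace Pool.Agent.Results.MP_c367c1_co.EdgeDisjointCycles

open SimpleGraph Pool.Agent.helper88.GH

/-- Let `T` be a tree with `m` edges and `G` a finite simple graph which is `2m`-regular, or
bipartite and `m`-regular. If the cycles of `G` of length less than the diameter of `T` are pairwise
edge-disjoint (any two of them which have a common edge have the same edges), then `T`
decomposes `G`. -/
theorem result {V W : Type} [Fintype V] [Fintype W] (T : SimpleGraph W) (G : SimpleGraph V)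
    (m : ℕ) (hT : T.IsTree) (hm : T.edgeSet.ncard = m)
    (hreg : (∀ v, (G.neighborSet v).ncard = 2 * m) ∨
      (G.IsBipartite ∧ ∀ v, (G.neighborSet v).ncard = m))
    (hcyc : ∀ (a b : V) (p : G.Walk a a) (q : G.Walk b b), p.IsCycle → q.IsCycle →
      (p.length : ℕ∞) < T.ediam → (q.length : ℕ∞) < T.ediam →
      (∃ e, e ∈ p.edges ∧ e ∈ q.edges) → ∀ e, e ∈ p.edges → e ∈ q.edges) :
    Decomposes T G :=
  Pool.Agent.GHR.all_Asm.1 V W T G m hT hm hreg hcyc

end Pool.Agent.Results.MP_c367c1_co.EdgeDisjointCycles
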