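import Pool.Agent.helper63.GH.Bip
import Pool.Agent.helper8.GH.TREE

namespace Pool.Agent.Results.MP_c367c1_co.FractionalDecomposition

open Pool.Agent.helper63.GH

/-- Let `T` be a tree with `m` edges and `G` a finite simple graph. If `G` is `2m`-regular, or
bipartite with all degrees at least `m`, then the `N`-fold multigraph of `G` decomposes into copies
of `T` for the number `N = m * ∏_{1 ≤ i < m} (i (i + 1))^i`, which depends only on `m`. If all
degrees of `G` are at least `m`, then the `2N`-fold multigraph of `G` decomposes into copies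
of `T`. -/
theorem result {U V : Type*} [Fintype U] [Fintype V] (T : SimpleGraph U) (G : SimpleGraph V)
    (m : ℕ) (hT : T.IsTree) (hm : T.edgeSet.ncard = m) :
    ((∀ v, (G.neighborSet v).ncard = 2 * m) ∨
        (G.IsBipartite ∧ ∀ v, m ≤ (G.neighborSet v).ncard) →
      FoldDecomposes (m * mult m) T G) ∧
    ((∀ v, m ≤ (G.neighborSet v).ncard) → FoldDecomposes (2 * m * mult m) T G) := by
  subst hm
  refine ⟨?_, fun h => case_min TREE T G hT h⟩
  rintro (h | ⟨hb, h⟩)
  · exact case_reg TREE T G hT h
  · exact case_bip TREE T G hT hb h

end Pool.Agent.Results.MP_c367c1_co.FractionalDecomposition
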