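import Pool.Agent.helper63.GH.Asm2

namespace Pool.Agent.Results.MP_c367c1_co.LargeMultiplicity

open Pool.Agent.helper63.GH

universe u w

/-- For every `m ≥ 1` there is `N₀` such that for all `N ≥ N₀`, all trees `T` with `m` edges and all
finite simple graphs `G` which are `2m`-regular, or bipartite and `m`-regular, the multigraph in
which every edge of `G` is taken `N` times decomposes into copies of `T`. -/
theorem result (m : ℕ) (hm : 1 ≤ m) : ∃ N₀ : ℕ, ∀ N ≥ N₀,
    ∀ (U : Type u) (V : Type w) [Fintype U] [Fintype V] (T : SimpleGraph U)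
      (G : SimpleGraph V), T.IsTree → T.edgeSet.ncard = m →
      ((∀ v, (G.neighborSet v).ncard = 2 * m) ∨
        (G.IsBipartite ∧ ∀ v, (G.neighborSet v).ncard = m)) →
      FoldDecomposes N T G :=
  ⟨2 * m * (MM m * BB m), fun N hN _ _ _ _ T G hT hTm hG =>
    large m hm N hN T G hT hTm hG⟩

end Pool.Agent.Results.MP_c367c1_co.LargeMultiplicity
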